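import Pool.Agent.H26.MV.CntK

/-!
# (CB) the number of the characters
-/

set_option autoImplicit false

open NumberField NumberField.InfinitePlace NumberField.Units
open scoped nonZeroDivisors

namespace Pool.Agent.H26.GLB

open Pool.Agent.H23.LB Pool.Agent.H25.HK Pool.Agent.H23.LC Pool.Agent.H26.MV

theorem pf_CB : U_CB := by
  intro n hn
  obtain ⟨c, hc, H⟩ := count_k n
  refine ⟨c, hc, ?_⟩
  intro K _ _ hK f hf T hT
  classical
  obtain ⟨X, hX1, hX2⟩ := H K hK f hf T hT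
  obtain ⟨hfin, hcard⟩ := card_dual0 (ClassGroup (𝓞 K))
  have : Fintype (ClassGroup (𝓞 K) →* ℂˣ) := Fintype.ofFinite _
  have hum : ∀ p : {p // p ∈ X}, UM fun x : K => ag p.1.2.1 x * ph p.1.2.2 x := fun p =>
    (ang_um p.1.2.1).mul' (ph_um p.1.2.2)
  have hext : ∀ p : {p // p ∈ X}, ∃ χ : (FractionalIdeal (𝓞 K)⁰ K)ˣ →* Circle, ∀ a : Mf f,
      ((χ (FractionalIdeal.mk0 K (spM f a)) : Circle) : ℂ) =
        ((p.1.1 (resU f a) : ℂˣ) : ℂ) * (ag p.1.2.1 (a.1 : K) * ph p.1.2.2 (a.1 : K)) := fun p =>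
    ext_gen f hf p.1.1 (fun x : K => ag p.1.2.1 x * ph p.1.2.2 x) (hum p)
      (hX1 p.1 p.2).2.2.2.2
  choose χ hχ using hext
  have hpr := fun q : {p // p ∈ X} × (ClassGroup (𝓞 K) →* ℂˣ) =>
    psi_props f q.1.1.1 (fun x : K => ag q.1.1.2.1 x * ph q.1.1.2.2 x) (χ q.1) (hχ q.1) q.2
  let F : {p // p ∈ X} × (ClassGroup (𝓞 K) →* ℂˣ) → HG K f := fun q =>
    { ψ := psiOf f (χ q.1) q.2
      k := q.1.1.2.1
      ν := q.1.1.2.2
      map_top := (hpr q).1
      map_mul := (hpr q).2.1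
      map_bot := (hpr q).2.2.1
      norm_one := (hpr q).2.2.2.1
      eq_zero := (hpr q).2.2.2.2.1
      princ := (hpr q).2.2.2.2.2
      real_k := fun v hv => Or.inl ((hX1 q.1.1 q.1.2).1 v hv)
      norm_zero := (hX1 q.1.1 q.1.2).2.2.1 }
  have hinj : Function.Injective F := by
    intro q q' h
    have hψ : psiOf f (χ q.1) q.2 = psiOf f (χ q'.1) q'.2 := congrArg HG.ψ h
    have hk : q.1.1.2.1 = q'.1.1.2.1 := congrArg HG.k h
    have hν : q.1.1.2.2 = q'.1.1.2.2 := congrArg HG.ν h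
    have h2 : ∀ x : K, x ≠ 0 → ag q.1.1.2.1 x * ph q.1.1.2.2 x ≠ 0 := by
      intro x hx h0
      have h1 := (hum q.1).norm x hx
      rw [h0, norm_zero] at h1
      exact zero_ne_one h1
    obtain ⟨h3, h4⟩ := psi_inj f hf (fun x : K => ag q.1.1.2.1 x * ph q.1.1.2.2 x) h2
      (η := q.1.1.1) (η' := q'.1.1.1) (χ := χ q.1) (χ' := χ q'.1) (hχ q.1)
      (by rw [hk, hν]; exact hχ q'.1) (fun h5 => by
        have h6 : q.1 = q'.1 := Subtype.ext (Prod.ext h5 (Prod.ext hk hν))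
        rw [h6]) hψ
    exact Prod.ext (Subtype.ext (Prod.ext h3 (Prod.ext hk hν))) h4
  refine ⟨Finset.univ.image F, ?_, ?_⟩
  · intro χ' hχ'
    obtain ⟨q, _, rfl⟩ := Finset.mem_image.mp hχ'
    intro v
    exact ⟨(hX1 q.1.1 q.1.2).2.2.2.1 v, (hX1 q.1.1 q.1.2).2.1 v⟩
  · rw [Finset.card_image_of_injective _ hinj, Finset.card_univ, Fintype.card_prod,
      Fintype.card_coe, ← Nat.card_eq_fintype_card (α := ClassGroup (𝓞 K) →* ℂˣ), hcard,
      Nat.card_eq_fintype_card]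
    push_cast
    have h1 : (classNumber K : ℝ) = (Fintype.card (ClassGroup (𝓞 K)) : ℝ) := rfl
    rw [h1]
    have h2 : (0 : ℝ) ≤ (Fintype.card (ClassGroup (𝓞 K)) : ℝ) := by positivity
    calc c * (T ^ (n - 1) * ((Fintype.card (ClassGroup (𝓞 K)) : ℝ) * regulator K * Phi K f))
        = (c * T ^ (n - 1) * (regulator K * Phi K f)) * Fintype.card (ClassGroup (𝓞 K)) := by
          ring
      _ ≤ X.card * Fintype.card (ClassGroup (𝓞 K)) := mul_le_mul_of_nonneg_right hX2 h2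

end Pool.Agent.H26.GLB
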